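import Pool.Agent.H53.CZ.Targets

/-!
# Counting complete bipartite subconfigurations (module KST)
-/

set_option autoImplicit false

open Finset
open Pool.Agent.H53.CZD

namespace Pool.Agent.H34.CZ

theorem pow_sum_le {β : Type*} (s : Finset β) (f : β → ℕ) (k : ℕ) :
    (∑ x ∈ s, f x) ^ (k + 1) ≤ #s ^ k * ∑ x ∈ s, f x ^ (k + 1) := by
  have h := pow_sum_le_card_mul_sum_pow (s := s) (f := f) (fun _ _ => Nat.zero_le _) k
  exact_mod_cast h

theorem kst : KST := by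
  intro α _ N Rel _ q hq
  rcases Nat.eq_zero_or_pos q with rfl | hq0
  · simp
  obtain ⟨k, rfl⟩ : ∃ k, q = k + 1 := ⟨q - 1, by omega⟩
  rcases Nat.eq_zero_or_pos #N with hN | hN
  · rw [hN]
    simp
  set P := Fintype.piFinset fun _ : Fin (k + 1) => N with hP
  have cP : #P = #N ^ (k + 1) := by
    rw [hP, Fintype.card_piFinset]
    simp
  -- degrees
  have h1 : #{p ∈ N ×ˢ N | Rel p.1 p.2} = ∑ b ∈ N, #{a ∈ N | Rel a b} := by
    simp only [card_filter, sum_product_right]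
  -- tuples of points of `N` related to `b`
  have h2 : ∀ b, #{a ∈ P | ∀ i, Rel (a i) b} = #{a ∈ N | Rel a b} ^ (k + 1) := by
    intro b
    have : {a ∈ P | ∀ i, Rel (a i) b} =
        Fintype.piFinset fun _ : Fin (k + 1) => {a ∈ N | Rel a b} := by
      ext a
      simp only [hP, mem_filter, Fintype.mem_piFinset]
      exact ⟨fun h i => ⟨h.1 i, h.2 i⟩, fun h => ⟨fun i => (h i).1, fun i => (h i).2⟩⟩
    rw [this, Fintype.card_piFinset]
    simp
  have h3 : ∀ a : Fin (k + 1) → α, #{b ∈ P | ∀ i j, Rel (a i) (b j)} =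
      #{b ∈ N | ∀ i : Fin (k + 1), Rel (a i) b} ^ (k + 1) := by
    intro a
    have : {b ∈ P | ∀ i j, Rel (a i) (b j)} =
        Fintype.piFinset fun _ : Fin (k + 1) => {b ∈ N | ∀ i : Fin (k + 1), Rel (a i) b} := by
      ext b
      simp only [hP, mem_filter, Fintype.mem_piFinset]
      exact ⟨fun h j => ⟨h.1 j, fun i => h.2 i j⟩, fun h => ⟨fun j => (h j).1, fun i j => (h j).2 i⟩⟩
    rw [this, Fintype.card_piFinset]
    simp
  have h4 : ∑ a ∈ P, #{b ∈ N | ∀ i : Fin (k + 1), Rel (a i) b} =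
      ∑ b ∈ N, #{a ∈ N | Rel a b} ^ (k + 1) := by
    rw [Finset.sum_congr rfl (fun b _ => (h2 b).symm)]
    simp only [card_filter]
    rw [sum_comm]
  have h5 : #{p ∈ P ×ˢ P | ∀ i j, Rel (p.1 i) (p.2 j)} =
      ∑ a ∈ P, #{b ∈ N | ∀ i : Fin (k + 1), Rel (a i) b} ^ (k + 1) := by
    rw [Finset.sum_congr rfl (fun a _ => (h3 a).symm)]
    simp only [card_filter, sum_product]
  rw [h5]
  rw [h1] at hq
  set S := ∑ b ∈ N, #{a ∈ N | Rel a b} ^ (k + 1) with hS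
  have e1 : #N ^ (k + 2) ≤ 128 ^ (k + 1) * S := by
    have a1 := pow_sum_le N (fun b => #{a ∈ N | Rel a b}) k
    have a2 : (#N ^ 2) ^ (k + 1) ≤ (128 * ∑ b ∈ N, #{a ∈ N | Rel a b}) ^ (k + 1) :=
      Nat.pow_le_pow_left hq _
    rw [mul_pow] at a2
    have a3 : #N ^ k * #N ^ (k + 2) ≤ #N ^ k * (128 ^ (k + 1) * S) := by
      calc #N ^ k * #N ^ (k + 2) = (#N ^ 2) ^ (k + 1) := by ring
        _ ≤ _ := a2
        _ ≤ 128 ^ (k + 1) * (#N ^ k * S) := Nat.mul_le_mul_left _ a1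
        _ = _ := by ring
    exact Nat.le_of_mul_le_mul_left a3 (by positivity)
  have e2 := pow_sum_le P (fun a => #{b ∈ N | ∀ i : Fin (k + 1), Rel (a i) b}) k
  rw [h4, cP] at e2
  have e3 : (#N ^ (k + 2)) ^ (k + 1) ≤ (128 ^ (k + 1) * S) ^ (k + 1) := Nat.pow_le_pow_left e1 _
  rw [mul_pow] at e3
  have e4 : (#N ^ (k + 1)) ^ k * #N ^ (2 * (k + 1)) ≤ (#N ^ (k + 1)) ^ k * (128 ^ ((k + 1) ^ 2) *
      ∑ a ∈ P, #{b ∈ N | ∀ i : Fin (k + 1), Rel (a i) b} ^ (k + 1)) := by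
    calc (#N ^ (k + 1)) ^ k * #N ^ (2 * (k + 1)) = (#N ^ (k + 2)) ^ (k + 1) := by ring
      _ ≤ _ := e3
      _ ≤ (128 ^ (k + 1)) ^ (k + 1) * _ := Nat.mul_le_mul_left _ e2
      _ = _ := by ring
  exact Nat.le_of_mul_le_mul_left e4 (by positivity)

end Pool.Agent.H34.CZ
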