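import Pool.Agent.H53.CZ.Targets

/-!
# The edgeless graph state (module PLUS)
-/

set_option autoImplicit false

open Finset
open Pool.Agent.H53.CZD

namespace Pool.Agent.H34.CZ

open Classical in
theorem plus_step (n : ℕ) : ∀ k : ℕ, k ≤ n → ∃ l : List (Gate n), czCount l = 0 ∧
    run l (zeroState n) = fun x : Fin n → Bool =>
      if ∀ i : Fin n, k ≤ (i : ℕ) → x i = false then (((Real.sqrt 2 : ℝ) : ℂ)⁻¹) ^ k else 0
  | 0, _ => by
    refine ⟨[], rfl, ?_⟩
    funext x
    simp only [run, List.foldl_nil, zeroState, Nat.zero_le, true_implies, pow_zero]
    by_cases h : x = fun _ => false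
    · rw [if_pos h, if_pos (fun i => by rw [h])]
    · rw [if_neg h, if_neg (fun h' => h (funext h'))]
  | k + 1, hk => by
    obtain ⟨l, h1, h2⟩ := plus_step n k (by omega)
    refine ⟨l ++ [Gate.H ⟨k, hk⟩], ?_, ?_⟩
    · simp only [czCount, List.countP_append] at h1 ⊢
      rw [h1]
      rfl
    · have h3 : run (l ++ [Gate.H ⟨k, hk⟩]) (zeroState n) =
          (Gate.H ⟨k, hk⟩).apply (run l (zeroState n)) := by
        simp only [run, List.foldl_append, List.foldl_cons, List.foldl_nil]
      rw [h3, h2]
      funext x
      simp only [Gate.apply]
      rw [if_neg (c := ∀ i : Fin n, k ≤ (i : ℕ) → Function.update x ⟨k, hk⟩ true i = false)]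
      · rw [mul_zero, add_zero]
        by_cases h : ∀ i : Fin n, k + 1 ≤ (i : ℕ) → x i = false
        · rw [if_pos h, if_pos, pow_succ]
          · ring
          · intro i hi
            by_cases hik : i = ⟨k, hk⟩
            · rw [hik, Function.update_self]
            · rw [Function.update_of_ne hik]
              apply h
              have : (i : ℕ) ≠ k := fun h' => hik (Fin.ext h')
              omega
        · rw [if_neg h, if_neg, mul_zero]
          intro h'
          apply h
          intro i hi
          have h4 := h' i (by omega)
          have hik : i ≠ ⟨k, hk⟩ := by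
            intro h5
            have := congrArg Fin.val h5
            simp only at this
            omega
          rwa [Function.update_of_ne hik] at h4
      · intro h'
        have := h' ⟨k, hk⟩ le_rfl
        rw [Function.update_self] at this
        exact Bool.noConfusion this

theorem plus : PLUS := by
  classical
  intro n
  obtain ⟨l, h1, h2⟩ := plus_step n n le_rfl
  refine ⟨l, h1, ?_⟩
  rw [h2]
  funext x
  rw [if_pos (fun i hi => absurd i.isLt (by omega))]
  unfold graphState
  simp

end Pool.Agent.H34.CZ
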